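import Pool.Agent.Helper18.T5b.MidExp
import Pool.Agent.Helper45.T5g.Mid4
import Pool.Agent.Helper3.T5.Lab
import Pool.Agent.Helper27.T5g.Range
import Pool.Agent.Helper18.T5.J0c

/-!
# T5g (MP_12a1af), line 8: the number of the middle range

The labels are counted modulo `N0 = Jn m k s l'`, the windows in one class modulo `FF m k l' 0`:
`mid_rho` : (number of pairs of windows) * (price of a label) is at most `exp (-SS / 50)`.
-/

set_option autoImplicit false

namespace Pool.Agent.Helper18.T5g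

open Finset Pool.Agent.Helper27.T4 Pool.Agent.Helper84.T5g Pool.Agent.Helper37.T5g
open Pool.Agent.Helper30.T5g (BigQ BP BP_pos NL NL_lower pz pz_le QT QT_pos RT RT_pos RT_le
  le_QT_mul PZ ez ez_le_add PZ_mul lt_ez lt_ez_sub two_ez_le)
open Pool.Agent.Helper27.T5g Pool.Agent.Helper27.T5b
open Pool.Agent.Helper5.ET (pr own bb era)
open Pool.Agent.Helper3.T5 Pool.Agent.Helper3.T5g
open Pool.Agent.Helper63.T5 (lam lam_gt lam_lt)
open Pool.Agent.Helper48.T5g (Cpl)

variable {m : Sq} {k : ℕ}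

/-! ## growth of the moduli -/

theorem NL_log_lower (m : Sq) (k : ℕ) {x y : ℕ} (h : x ≤ y) :
    lam * ((y : ℝ) - x) ≤ Real.log (NL m k y) - Real.log (NL m k x) := by
  have h1 := NL_lower m k h
  have hx : (0 : ℝ) < NL m k x := by exact_mod_cast NL_pos m k x
  have h2 : (NL m k x : ℝ) * (10 ^ 6) ^ (y - x) ≤ NL m k y := by exact_mod_cast h1
  have h3 := Real.log_le_log (by positivity) h2
  rw [Real.log_mul hx.ne' (by positivity), Real.log_pow, Nat.cast_sub h] at h3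
  have e : lam = Real.log (10 ^ 6) := rfl
  rw [e]
  linarith

theorem exists_NL_log_upper (hm : m.Ok) (k : ℕ) [hQ : BigQ m k] :
    ∃ l0 C : ℕ, ∀ x y, l0 ≤ x → x ≤ y →
    Real.log (NL m k y) - Real.log (NL m k x) ≤
      lam * ((1 + 1 / 10000) * ((y : ℝ) - x) + C) := by
  obtain ⟨l0, C, h0⟩ := Pool.Agent.Helper30.T5g.exists_NL_le (k := k) hm
  refine ⟨l0, C + 1, fun x y hx hxy => ?_⟩
  have h1 := h0 x y ((10001 * (y - x) + C) / 10000 + 1) hx hxy (by omega)
  have hxp : (0 : ℝ) < NL m k x := by exact_mod_cast NL_pos m k x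
  have hyp : (0 : ℝ) < NL m k y := by exact_mod_cast NL_pos m k y
  have h2 : (NL m k y : ℝ) ≤ NL m k x * (10 ^ 6) ^ ((10001 * (y - x) + C) / 10000 + 1) := by
    exact_mod_cast h1
  have h3 := Real.log_le_log hyp h2
  rw [Real.log_mul hxp.ne' (by positivity), Real.log_pow] at h3
  have e : lam = Real.log (10 ^ 6) := rfl
  rw [← e] at h3
  have h4 : 10000 * ((10001 * (y - x) + C) / 10000) ≤ 10001 * (y - x) + C := Nat.mul_div_le _ _
  have h5 : (10000 : ℝ) * (((10001 * (y - x) + C) / 10000 : ℕ) : ℝ) ≤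
      10001 * ((y : ℝ) - x) + C := by
    rw [← Nat.cast_sub hxy]
    exact_mod_cast h4
  have h6 : ((((10001 * (y - x) + C) / 10000 + 1 : ℕ) : ℕ) : ℝ) ≤
      (1 + 1 / 10000) * ((y : ℝ) - x) + ((C + 1 : ℕ) : ℝ) := by
    push_cast
    have : (0 : ℝ) ≤ C := Nat.cast_nonneg _
    linarith
  have h7 := mul_le_mul_of_nonneg_right h6 (show 0 ≤ lam by linarith [lam_gt])
  linarith

/-- two joint moduli of complete states -/
theorem Jn_log {s x y : ℕ} (hx : Cpl m k s x) (hy : Cpl m k s y) :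
    Real.log (Jn m k s y) - Real.log (Jn m k s x) =
      Real.log (NL m k y) - Real.log (NL m k x) := by
  have h1 := Jn_mul_RT hx
  have h2 := Jn_mul_RT hy
  have p1 : (Jn m k s x : ℝ) ≠ 0 := by exact_mod_cast (Pool.Agent.Helper27.T5g.Jn_pos m k s x).ne'
  have p2 : (Jn m k s y : ℝ) ≠ 0 := by exact_mod_cast (Pool.Agent.Helper27.T5g.Jn_pos m k s y).ne'
  have p3 : (RT m k s : ℝ) ≠ 0 := by exact_mod_cast (RT_pos m k s).ne'
  rw [← h1, ← h2]
  push_cast
  rw [Real.log_mul p2 p3, Real.log_mul p1 p3]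
  ring

/-! ## labels modulo the lower state -/

/-- the labels of a class modulo `N0` -/
theorem prod_half_le {ι : Type*} [Fintype ι] [DecidableEq ι] (p c c' : ι → ℕ)
    (hp : ∀ i, 0 < p i) (hc : ∀ i, c' i ≤ c i) (R : ι) :
    (∏ i ∈ univ.erase R, p i ^ ((c i - c' i) / 2)) ^ 2 * ∏ i, p i ^ c' i ≤ ∏ i, p i ^ c i := by
  have h1 : (∏ i ∈ univ.erase R, p i ^ ((c i - c' i) / 2)) ^ 2 ≤ ∏ i, p i ^ (c i - c' i) := by
    rw [← Finset.prod_pow]
    calc ∏ i ∈ univ.erase R, (p i ^ ((c i - c' i) / 2)) ^ 2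
        ≤ ∏ i ∈ univ.erase R, p i ^ (c i - c' i) := by
          refine Finset.prod_le_prod' fun i _ => ?_
          rw [← pow_mul]
          exact Nat.pow_le_pow_right (hp i) (Nat.div_mul_le_self _ _)
      _ ≤ ∏ i, p i ^ (c i - c' i) := by
          refine Finset.prod_le_prod_of_subset_of_one_le' (erase_subset _ _) fun i _ _ => ?_
          exact Nat.one_le_pow _ _ (hp i)
  refine (Nat.mul_le_mul_right _ h1).trans (le_of_eq ?_)
  rw [← Finset.prod_mul_distrib]
  refine Finset.prod_congr rfl fun i _ => ?_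
  rw [← pow_add, Nat.sub_add_cancel (hc i)]

theorem pJ_le (k s : ℕ) (i : JF) : pJ k s i ≤ BP k := by
  rcases i with f | i
  · exact Pool.Agent.Helper30.T5g.pr_le_BP k f
  · refine Fin.cases ?_ (fun f => ?_) i
    · exact (Pool.Agent.Helper30.T5g.buf_lt_BP k).le
    · exact pz_le k (s + 1) f

theorem MNs_C (m : Sq) (k l' l : ℕ) : (MNs m k l' l).C ≤ (2 * BP k) ^ 7 := by
  have h : (MNs m k l' l).C ≤ ∏ _i : JF, (2 * BP k) := by
    refine Finset.prod_le_prod' fun i _ => ?_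
    have := pJ_le k (sL m k l) i
    show 2 * (pJ k (sL m k l) i - 1) ≤ _
    omega
  refine h.trans (le_of_eq ?_)
  rw [Finset.prod_const, Finset.card_univ]
  rfl

/-- `SS` against the border -/
theorem SS_small (hm : m.Ok) {y : ℕ} (h : kt m k ≤ era y) :
    2 ^ 200 * SS m (sv m k y) ≤ bb (era y) := by
  refine le_trans ?_ (ZZ_small (k := k) hm h)
  apply Nat.mul_le_mul_left
  unfold ZZ
  split_ifs with hs
  · have h1 : sv m k y ≤ lv m k (era y) + 1 := sv_le_lv_succ m k y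
    exact (SS_mono m h1).trans (Nat.le_mul_of_pos_left _ (by norm_num))
  · have h1 : sv m k y = lv m k (era y) := by
      unfold sv
      rw [if_neg (fun h => hs h.1), add_zero]
    rw [h1]
    exact Nat.le_mul_of_pos_left _ (by norm_num)

/-- the third family of the era of the lower state is large -/
theorem exists_fresh (hm : m.Ok) (k : ℕ) : ∃ l0, ∀ l' x s, l0 ≤ l' → l' ≤ x →
    2 ^ 190 * SS m (sL m k l') ≤ aJ m k s x (Sum.inl (fam (era (mL m k l') + 2))) := by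
  obtain ⟨j0, h0⟩ := Pool.Agent.Helper36.T5.fresh_size
  obtain ⟨l0, h1⟩ := Pool.Agent.Helper30.T5g.exists_late (k := k) hm 0 j0
  refine ⟨l0, fun l' x s hl hx => ?_⟩
  obtain ⟨_, a2, a3, a4, _⟩ := h1 l' hl
  have h2 := h0 (mL m k l') a4 a2
  have h3 : Pool.Agent.Helper5.ET.av (mL m k l') (fam (era (mL m k l') + 2)) =
      aJ m k s l' (Sum.inl (fam (era (mL m k l') + 2))) :=
    (ct_main (ins := ins m k) (mo := own) (ex := ex m k) _ _).symm
  have h4 := Pool.Agent.Helper45.T5g.aJ_mono m k s hx (Sum.inl (fam (era (mL m k l') + 2)))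
  have h5 : 2 ^ 200 * SS m (sL m k l') ≤ bb (era (mL m k l')) := SS_small hm a3
  rw [← h3] at h4
  generalize aJ m k s x (Sum.inl (fam (era (mL m k l') + 2))) = A at *
  generalize Pool.Agent.Helper5.ET.av (mL m k l') (fam (era (mL m k l') + 2)) = B at *
  generalize SS m (sL m k l') = S at *
  generalize bb (era (mL m k l')) = b at *
  norm_num at h5 ⊢
  omega

/-- **line 8, the number** -/
theorem mid_rho (hm : m.Ok) (k : ℕ) [hQ : BigQ m k] : ∃ l0, ∀ l' l, l0 ≤ l' → l' ≤ l → Same m k l' l →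
    7 * SS m (sL m k l) ≤ 20 * (l - l') → l - l' < 200 * SS m (sL m k l) → ∀ E1 : ℕ,
    (E1 : ℝ) ≤ Pool.Agent.Helper45.T5g.FE m k l' l →
    (E1 : ℝ) * ((MNs m k l' l).C * MP.Lam0 (MNs m k l' l) *
      (((MNs m k l' l).Ne' : ℝ) / (MNs m k l' l).Ne + 1 / (MNs m k l' l).q)) ≤
      Real.exp (-((SS m (sL m k l) : ℝ) / 50)) := by
  have hm0 := hm
  obtain ⟨lu, C, hU⟩ := exists_NL_log_upper hm0 k
  obtain ⟨lf, hf⟩ := exists_fresh hm0 k
  obtain ⟨K1, hK1⟩ : ∃ K1 : ℕ, 7 * Real.log (2 * BP k) + 3 * Real.log (BP k) ≤ K1 :=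
    exists_nat_ge _
  obtain ⟨lb, hb⟩ := exists_bL hm0 k (2 ^ 30 * (K1 + C + 1))
  refine ⟨max lu (max lf lb), fun l' l hl hll hSm h7 h200 E1 hE1 => ?_⟩
  obtain ⟨hbb', hb'⟩ := hb l' (by omega)
  obtain ⟨hbb, hb1⟩ := hb l (by omega)
  obtain ⟨g1, g2, g3, g4, g5, g6⟩ := rL_bounds hm0 k l
  have hSm' : sL m k l' = sL m k l := hSm
  have hfr := fun x (hx : l' ≤ x) => hf l' x (sL m k l) (by omega) hx
  rw [hSm'] at hfr
  have hSge : 2 ^ 30 * (K1 + C + 1) ≤ SS m (sL m k l) :=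
    exists_SS_ge hm0 _ _ (by omega)
  -- positions
  have p1 : 11 * SS m (sL m k l) < 1024 * (ef m k l 0 - l) := lt_ez_sub hm0 _ _
  have p2 : 2 * ef m k l 0 ≤ 2 * l + 13 * PZ m (sL m k l) := two_ez_le _ _ _
  have p3 : 2 * ef m k l' 0 ≤ 2 * l' + 13 * PZ m (sL m k l') := two_ez_le _ _ _
  have p4 : 512 * PZ m (sL m k l) = SS m (sL m k l) := PZ_mul hm0 _
  have p5 : l < ef m k l 0 := lt_ez hm0 _ _
  have p6 : l' < ef m k l' 0 := lt_ez hm0 _ _
  have p7 : ef m k l 0 < ef m k l' 0 + (l - l') + PZ m (sL m k l) := by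
    have := ez_le_add hm0 (sL m k l - 0) l l'
    unfold ef
    rw [hSm']
    exact this
  have p8 : ef m k l' 0 ≤ ef m k l 0 := by
    have := Pool.Agent.Helper30.T5g.ez_mono m (sL m k l - 0) hll
    unfold ef
    rw [hSm']
    exact this
  rw [hSm'] at p3
  -- complete states
  have c1 : Cpl m k (sL m k l) l := cpl_self hm0 hbb
  have c2 : Cpl m k (sL m k l) l' := by
    have := cpl_self (k := k) hm0 hbb'
    rwa [hSm'] at this
  have c3 : Cpl m k (sL m k l) (ef m k l 0) := cpl_ef hm0 hbb 0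
  have c4 : Cpl m k (sL m k l) (ef m k l' 0) := by
    have := cpl_ef (k := k) hm0 hbb' 0
    rwa [hSm'] at this
  have r1 := Jn_log c2 c1
  have r2 := Jn_log c1 c3
  have r3 := Jn_log c2 c4
  have r4 := Jn_log c4 c3
  have q1 := NL_log_lower m k hll
  have q2 := NL_log_lower m k p5.le
  have q3 := NL_log_lower m k p6.le
  have u2 := hU l (ef m k l 0) (by omega) p5.le
  have u3 := hU l' (ef m k l' 0) (by omega) p6.le
  have u4 := hU (ef m k l' 0) (ef m k l 0) (by omega) p8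
  rw [← r1] at q1
  rw [← r2] at q2 u2
  rw [← r3] at q3 u3
  rw [← r4] at u4
  have hFF : FF m k l' 0 = Jn m k (sL m k l) (ef m k l' 0) := by
    unfold FF
    rw [hSm']
  have hFF1 : FF m k l 0 = Jn m k (sL m k l) (ef m k l 0) := rfl
  have hN0p : (0 : ℝ) < Jn m k (sL m k l) l' := by
    exact_mod_cast Pool.Agent.Helper27.T5g.Jn_pos m k _ _
  have hNp : (0 : ℝ) < Jn m k (sL m k l) l := by
    exact_mod_cast Pool.Agent.Helper27.T5g.Jn_pos m k _ _
  have hNep : (0 : ℝ) < Jn m k (sL m k l) (ef m k l 0) := by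
    exact_mod_cast Pool.Agent.Helper27.T5g.Jn_pos m k _ _
  have hNep' : (0 : ℝ) < Jn m k (sL m k l) (ef m k l' 0) := by
    exact_mod_cast Pool.Agent.Helper27.T5g.Jn_pos m k _ _
  -- logarithms
  set X0 := Real.log (Jn m k (sL m k l) l') with hX0
  set X1 := Real.log (Jn m k (sL m k l) l) with hX1
  set X2 := Real.log (Jn m k (sL m k l) (ef m k l 0)) with hX2
  set X3 := Real.log (Jn m k (sL m k l) (ef m k l' 0)) with hX3
  have eN : (Jn m k (sL m k l) l : ℝ) / Jn m k (sL m k l) l' = Real.exp (X1 - X0) := by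
    rw [Real.exp_sub, hX1, hX0, Real.exp_log hNp, Real.exp_log hN0p]
  have eNe : (FF m k l 0 : ℝ) / Jn m k (sL m k l) l' = Real.exp (X1 - X0 + (X2 - X1)) := by
    rw [hFF1, show X1 - X0 + (X2 - X1) = X2 - X0 by ring, Real.exp_sub, hX2, hX0,
      Real.exp_log hNep, Real.exp_log hN0p]
  have eNe' : (FF m k l' 0 : ℝ) / Jn m k (sL m k l) l' = Real.exp (X3 - X0) := by
    rw [hFF, Real.exp_sub, hX3, hX0, Real.exp_log hNep', Real.exp_log hN0p]
  have eR : ((MNs m k l' l).Ne' : ℝ) / (MNs m k l' l).Ne = Real.exp (X3 - X2) := by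
    have e1 : (MNs m k l' l).Ne' = Jn m k (sL m k l) (ef m k l' 0) := rfl
    have e2 : (MNs m k l' l).Ne = Jn m k (sL m k l) (ef m k l 0) := rfl
    rw [e1, e2, Real.exp_sub, hX3, hX2, Real.exp_log hNep', Real.exp_log hNep]
  -- sizes
  obtain ⟨S, hS⟩ : ∃ S, SS m (sL m k l) = S := ⟨_, rfl⟩
  obtain ⟨S2, hS2⟩ : ∃ S2, SS m (sL m k l - 1) = S2 := ⟨_, rfl⟩
  have hSg : Sg m (sL m k l) = S - S2 := by rw [← hS, ← hS2]; rfl
  have hS2S : 2 ^ 250 * S2 ≤ S := by
    have h := SS_succ_ge hm0 (sL m k l - 1)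
    have e : sL m k l - 1 + 1 = sL m k l := by
      have : 0 < 2 ^ 30 * (K1 + C + 1) := by positivity
      omega
    rw [e, hS, hS2] at h
    exact h
  have hS2S' : 2 ^ 40 * S2 ≤ S :=
    (Nat.mul_le_mul_right _ (Nat.pow_le_pow_right (by norm_num) (by norm_num))).trans hS2S
  clear hS2S
  have hS2S'' : S2 ≤ S := by omega
  rw [hS] at hSge h7 h200 p1 p4 ⊢
  have hS2r : (2 : ℝ) ^ 40 * S2 ≤ S := by exact_mod_cast hS2S'
  have hSger : (2 : ℝ) ^ 30 * ((K1 : ℝ) + C + 1) ≤ S := by exact_mod_cast hSge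
  have hK0 : (0 : ℝ) ≤ K1 := Nat.cast_nonneg _
  have hC0 : (0 : ℝ) ≤ C := Nat.cast_nonneg _
  have hS20 : (0 : ℝ) ≤ S2 := Nat.cast_nonneg _
  have lg := lam_gt
  have lu' := lam_lt
  have hSpos : (0 : ℝ) < S := lt_of_lt_of_le (by positivity) hSger
  obtain ⟨T, hT⟩ : ∃ T, T = lam * (S : ℝ) := ⟨_, rfl⟩
  have hT13 : 13 * (S : ℝ) ≤ T := by
    rw [hT]
    exact mul_le_mul_of_nonneg_right lg.le hSpos.le
  have hT14 : T ≤ 14 * (S : ℝ) := by
    rw [hT]
    exact mul_le_mul_of_nonneg_right lu'.le hSpos.le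
  have hTpos : 0 < T := lt_of_lt_of_le (by positivity) hT13
  have hlam0 : 0 ≤ lam := le_trans (by norm_num) lg.le
  -- the slack
  have sl1 : (2 : ℝ) ^ 30 * K1 ≤ S := by
    have := mul_nonneg (show (0 : ℝ) ≤ 2 ^ 30 by positivity) hC0
    linarith only [hSger, this]
  have sl2 : (2 : ℝ) ^ 30 * C ≤ S := by
    have := mul_nonneg (show (0 : ℝ) ≤ 2 ^ 30 by positivity) hK0
    linarith only [hSger, this]
  have sl3 : (2 : ℝ) ^ 30 ≤ S := by
    have h1 := mul_nonneg (show (0 : ℝ) ≤ 2 ^ 30 by positivity) hK0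
    have h2 := mul_nonneg (show (0 : ℝ) ≤ 2 ^ 30 by positivity) hC0
    linarith only [hSger, h1, h2]
  -- positions in the reals
  have s1 : 7 * (S : ℝ) ≤ 20 * ((l : ℝ) - l') := by
    rw [← Nat.cast_sub hll]
    exact_mod_cast h7
  have s2 : 11 * (S : ℝ) ≤ 1024 * (((ef m k l 0 : ℕ) : ℝ) - l) := by
    rw [← Nat.cast_sub p5.le]
    exact_mod_cast p1.le
  have s3 : 1024 * (((ef m k l 0 : ℕ) : ℝ) - l) ≤ 13 * (S : ℝ) := by
    rw [← Nat.cast_sub p5.le]
    have : 1024 * (ef m k l 0 - l) ≤ 13 * S := by omega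
    exact_mod_cast this
  have s4 : 1024 * (((ef m k l' 0 : ℕ) : ℝ) - l') ≤ 13 * (S : ℝ) := by
    rw [← Nat.cast_sub p6.le]
    have : 1024 * (ef m k l' 0 - l') ≤ 13 * S := by omega
    exact_mod_cast this
  have s5 : (((ef m k l 0 : ℕ) : ℝ) - ef m k l' 0) ≤ 201 * (S : ℝ) := by
    rw [← Nat.cast_sub p8]
    have : ef m k l 0 - ef m k l' 0 ≤ 201 * S := by omega
    exact_mod_cast this
  have s6 : (0 : ℝ) ≤ ((ef m k l' 0 : ℕ) : ℝ) - l' := by
    rw [← Nat.cast_sub p6.le]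
    exact Nat.cast_nonneg _
  -- bounds of the logarithms
  have b1 : 7 / 20 * T ≤ X1 - X0 := by
    have h1 : lam * (7 / 20 * (S : ℝ)) ≤ lam * ((l : ℝ) - l') :=
      mul_le_mul_of_nonneg_left (by linarith only [s1]) hlam0
    rw [hT]
    linarith only [h1, q1]
  have b2 : 11 / 1024 * T ≤ X2 - X1 := by
    have h1 : lam * (11 / 1024 * (S : ℝ)) ≤ lam * (((ef m k l 0 : ℕ) : ℝ) - l) :=
      mul_le_mul_of_nonneg_left (by linarith only [s2]) hlam0
    rw [hT]
    linarith only [h1, q2]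
  have b3 : X2 - X1 ≤ 14 / 1024 * T := by
    have h1 : lam * ((1 + 1 / 10000) * (((ef m k l 0 : ℕ) : ℝ) - l) + C) ≤
        lam * (14 / 1024 * (S : ℝ)) :=
      mul_le_mul_of_nonneg_left (by linarith only [s3, sl2, hSpos]) hlam0
    rw [hT]
    linarith only [h1, u2]
  have b4 : X3 - X0 ≤ 13 / 1024 * (1 + 1 / 10000) * T + T / 65536 := by
    have h1 : lam * ((1 + 1 / 10000) * (((ef m k l' 0 : ℕ) : ℝ) - l') + C) ≤
        lam * (13 / 1024 * (1 + 1 / 10000) * (S : ℝ) + S / 65536) :=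
      mul_le_mul_of_nonneg_left (by linarith only [s4, sl2, hSpos]) hlam0
    rw [hT]
    linarith only [h1, u3]
  have b5 : 0 ≤ X3 - X0 := by
    have h1 : 0 ≤ lam * (((ef m k l' 0 : ℕ) : ℝ) - l') := mul_nonneg hlam0 s6
    linarith only [h1, q3]
  -- the modulus
  have hQ : (QQ m k (sL m k l) 0 : ℝ) = QT m k (sL m k l) := by
    unfold QQ
    rw [Nat.sub_zero]
  have hQpos : (0 : ℝ) < QT m k (sL m k l) := by exact_mod_cast QT_pos m k _
  have hQ1 : (1 : ℝ) ≤ QT m k (sL m k l) := by exact_mod_cast QT_pos m k (sL m k l)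
  have hBPp : (0 : ℝ) < BP k := by exact_mod_cast BP_pos k
  have hBP1 : (1 : ℝ) ≤ BP k := by exact_mod_cast BP_pos k
  have hlB : 0 ≤ Real.log (BP k) := Real.log_nonneg hBP1
  have hl2B : 0 ≤ Real.log (2 * BP k) := Real.log_nonneg (by linarith)
  have b6 : T / 2 - T / 65536 ≤ Real.log (QT m k (sL m k l)) / 2 := by
    have h1 := le_QT_mul hm0 k (sL m k l)
    rw [hSg] at h1
    have h2 : ((10 : ℝ) ^ 6) ^ (S - S2) ≤ QT m k (sL m k l) * (BP k : ℝ) ^ 3 := by
      exact_mod_cast h1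
    have h3 := Real.log_le_log (by positivity) h2
    have h6 : Real.log ((BP k : ℝ) ^ 3) = 3 * Real.log (BP k) := by
      rw [Real.log_pow]
      norm_num
    have h7 : Real.log (((10 : ℝ) ^ 6) ^ (S - S2)) = ((S : ℝ) - S2) * lam := by
      rw [Real.log_pow, Nat.cast_sub hS2S'']
      rfl
    rw [Real.log_mul hQpos.ne' (by positivity), h6, h7] at h3
    have h4 : lam * (S2 : ℝ) ≤ 14 * S2 := mul_le_mul_of_nonneg_right lu'.le hS20
    have h5 : ((S : ℝ) - S2) * lam = T - lam * S2 := by rw [hT]; ring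
    rw [h5] at h3
    linarith only [h3, h4, hK1, hl2B, sl1, hT13, hS2r, hSpos]
  set lw := Real.log (QT m k (sL m k l)) / 2 with hlw
  have hwexp : Real.exp lw = Real.sqrt (QT m k (sL m k l)) := by
    rw [Real.sqrt_eq_rpow, Real.rpow_def_of_pos hQpos]
    congr 1
    rw [hlw]
    ring
  have hlw0 : 0 ≤ lw := by
    rw [hlw]
    have h1 := Real.log_nonneg hQ1
    linarith only [h1]
  -- the window
  have hV : (((17 * RT m k (sL m k l) : ℕ)) : ℝ) ≤ Real.exp (T + T / 65536) := by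
    have h1 := RT_le hm0 k (sL m k l)
    rw [hS] at h1
    have h2 : (RT m k (sL m k l) : ℝ) ≤ ((10 : ℝ) ^ 6) ^ S := by exact_mod_cast h1
    rw [Pool.Agent.Helper18.T5.million_pow_exp, ← hT] at h2
    have h3 : (17 : ℝ) ≤ Real.exp (T / 65536) := by
      have h4 := Real.add_one_le_exp (T / 65536)
      have h5 : (16 : ℝ) ≤ T / 65536 := by linarith only [hT13, sl3]
      linarith only [h4, h5]
    push_cast
    calc (17 : ℝ) * RT m k (sL m k l) ≤ Real.exp (T / 65536) * Real.exp T :=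
          mul_le_mul h3 h2 (Nat.cast_nonneg _) (Real.exp_pos _).le
      _ = _ := by rw [← Real.exp_add]; congr 1; ring
  have harc := Pool.Agent.Helper31.T5.arcs_exp (E := Real.exp (X1 - X0 + (X2 - X1)))
    (V := ((17 * RT m k (sL m k l) : ℕ) : ℝ)) (q := Real.exp (X1 - X0)) (w := Real.exp lw)
    (w' := Real.exp (X3 - X0) * Real.exp lw)
    (e := X1 - X0 + (X2 - X1)) (v := T + T / 65536) (lq := X1 - X0) (lw := lw)
    (lw' := (X3 - X0) + lw) (Real.one_le_exp (by linarith only [b1, hTpos]))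
    (Real.one_le_exp hlw0)
    (by rw [← Real.exp_add]; exact Real.one_le_exp (by linarith only [b5, hlw0]))
    (Real.exp_pos _).le (Nat.cast_nonneg _) le_rfl hV le_rfl le_rfl
    (by rw [← Real.exp_add])
  have hexp := Pool.Agent.Helper18.T5b.mid_exp (q := X1 - X0) (a := X2 - X1) (M := X3 - X0) (v := T + T / 65536)
    (lw := lw) (T := T) (s := T / 65536) hTpos (by positivity) (by linarith only [hTpos])
    le_rfl b6 b2 b3 b4 b1
  set MX : ℝ := max 0 (max (X1 - X0 + (X2 - X1)) (T + T / 65536) - (X1 - X0) - lw) +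
    max 0 (min (X1 - X0 + (X2 - X1)) (T + T / 65536) - ((X3 - X0) + lw)) with hMX
  -- number of pairs
  have hE2 : (E1 : ℝ) ≤ Real.exp (4 * (lam * S2) + 3 + MX) := by
    refine hE1.trans ?_
    unfold Pool.Agent.Helper45.T5g.FE
    rw [eN, eNe, eNe', hQ, ← hwexp, hS2, Pool.Agent.Helper18.T5.million_pow_exp]
    push_cast at harc ⊢
    have e1 : ∀ A B : ℝ, Real.exp (lam * (2 * (S2 : ℝ))) * A * (Real.exp (lam * (2 * (S2 : ℝ))) *
        B) = Real.exp (4 * (lam * S2)) * (A * B) := by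
      intro A B
      have : Real.exp (4 * (lam * S2)) =
          Real.exp (lam * (2 * (S2 : ℝ))) * Real.exp (lam * (2 * (S2 : ℝ))) := by
        rw [← Real.exp_add]; congr 1; ring
      rw [this]
      ring
    rw [e1]
    have e2 : (18 : ℝ) ≤ Real.exp 3 := by
      have e3 : Real.exp 3 = Real.exp 1 ^ 3 := by rw [← Real.exp_nat_mul]; norm_num
      rw [e3]
      have e4 := Real.exp_one_gt_d9
      calc (18 : ℝ) ≤ (2.7182818283 : ℝ) ^ 3 := by norm_num
        _ ≤ _ := pow_le_pow_left₀ (by norm_num) e4.le 3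
    calc _ ≤ Real.exp (4 * (lam * S2)) * (18 * Real.exp MX) :=
          mul_le_mul_of_nonneg_left harc (Real.exp_pos _).le
      _ ≤ Real.exp (4 * (lam * S2)) * (Real.exp 3 * Real.exp MX) := by gcongr
      _ = _ := by rw [← Real.exp_add, ← Real.exp_add]; congr 1; ring
  -- labels
  have hLam : (MP.Lam0 (MNs m k l' l) : ℝ) ≤ Real.exp ((X1 - X0) / 2) := by
    have h1 := prod_half_le (pJ k (sL m k l)) (aJ m k (sL m k l) l) (aJ m k (sL m k l) l')
      (fun i => (pJ_prime k _ i).pos) (Pool.Agent.Helper45.T5g.aJ_mono m k _ hll)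
      (Sum.inl (fam (era (mL m k l') + 2)))
    have h2 : (MP.Lam0 (MNs m k l' l)) ^ 2 * Jn m k (sL m k l) l' ≤ Jn m k (sL m k l) l := h1
    have h3 : (MP.Lam0 (MNs m k l' l) : ℝ) ^ 2 * Jn m k (sL m k l) l' ≤
        Jn m k (sL m k l) l := by exact_mod_cast h2
    have h4 : (MP.Lam0 (MNs m k l' l) : ℝ) ^ 2 ≤ Real.exp ((X1 - X0) / 2) ^ 2 := by
      rw [← Real.exp_nat_mul]
      have e : ((2 : ℕ) : ℝ) * ((X1 - X0) / 2) = X1 - X0 := by push_cast; ring
      rw [e, ← eN, le_div_iff₀ hN0p]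
      exact h3
    exact le_of_sq_le_sq h4 (Real.exp_pos _).le
  have hCC : ((MNs m k l' l).C : ℝ) ≤ Real.exp (7 * Real.log (2 * BP k)) := by
    have h1 := MNs_C m k l' l
    have h2 : ((MNs m k l' l).C : ℝ) ≤ (2 * (BP k : ℝ)) ^ 7 := by exact_mod_cast h1
    refine h2.trans (le_of_eq ?_)
    have e : (7 : ℝ) * Real.log (2 * BP k) = ((7 : ℕ) : ℝ) * Real.log (2 * BP k) := by norm_num
    rw [e, Real.exp_nat_mul, Real.exp_log (by positivity)]
  -- the fresh family
  have hfresh : 1 / ((MNs m k l' l).q : ℝ) ≤ Real.exp (X3 - X2) := by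
    set f0 := fam (era (mL m k l') + 2) with hf0
    have hq : (MNs m k l' l).q = pr f0 ^ aJ m k (sL m k l) (ef m k l 0) (Sum.inl f0) := rfl
    have h1 := hfr (ef m k l 0) (by omega)
    rw [hS] at h1
    set A := aJ m k (sL m k l) (ef m k l 0) (Sum.inl f0) with hA
    have h2 : 202 * S ≤ A := le_trans (Nat.mul_le_mul_right _ (by norm_num)) h1
    have h3 : (202 : ℝ) * S ≤ A := by exact_mod_cast h2
    have h4 : X2 - X3 ≤ lam * A := by
      refine u4.trans ?_
      apply mul_le_mul_of_nonneg_left _ hlam0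
      linarith only [s5, sl2, h3, hSpos]
    have h5 : Real.exp (lam * A) ≤ ((MNs m k l' l).q : ℝ) := by
      rw [hq]
      push_cast
      rw [← Pool.Agent.Helper18.T5.million_pow_exp]
      apply pow_le_pow_left₀ (by positivity)
      have : (10 : ℕ) ^ 6 ≤ pr f0 := Pool.Agent.Helper30.T5g.million_le_pr f0
      exact_mod_cast this
    have h6 : Real.exp (X3 - X2) = 1 / Real.exp (X2 - X3) := by
      rw [one_div, ← Real.exp_neg]
      congr 1
      ring
    rw [h6]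
    apply one_div_le_one_div_of_le (Real.exp_pos _)
    exact (Real.exp_le_exp.2 h4).trans h5
  have hprice : ((MNs m k l' l).C : ℝ) * MP.Lam0 (MNs m k l' l) *
      (((MNs m k l' l).Ne' : ℝ) / (MNs m k l' l).Ne + 1 / (MNs m k l' l).q) ≤
      Real.exp (7 * Real.log (2 * BP k) + (X1 - X0) / 2 + 1 + (X3 - X2)) := by
    rw [eR]
    have e0 : (2 : ℝ) ≤ Real.exp 1 := by
      have h1 := Real.add_one_le_exp (1 : ℝ)
      linarith only [h1]
    have e1 : Real.exp (X3 - X2) + 1 / ((MNs m k l' l).q : ℝ) ≤ Real.exp 1 * Real.exp (X3 - X2) := by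
      have h1 := Real.exp_pos (X3 - X2)
      have h2 := mul_le_mul_of_nonneg_right e0 h1.le
      linarith only [h2, hfresh]
    have e2 : (0 : ℝ) ≤ Real.exp (X3 - X2) + 1 / ((MNs m k l' l).q : ℝ) := by positivity
    have e3 : ((MNs m k l' l).C : ℝ) * MP.Lam0 (MNs m k l' l) ≤
        Real.exp (7 * Real.log (2 * BP k)) * Real.exp ((X1 - X0) / 2) :=
      mul_le_mul hCC hLam (Nat.cast_nonneg _) (Real.exp_pos _).le
    calc _ ≤ Real.exp (7 * Real.log (2 * BP k)) * Real.exp ((X1 - X0) / 2) *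
          (Real.exp 1 * Real.exp (X3 - X2)) :=
          mul_le_mul e3 e1 e2 (by positivity)
      _ = _ := by rw [← Real.exp_add, ← Real.exp_add, ← Real.exp_add]; congr 1; ring
  have hpos : 0 ≤ ((MNs m k l' l).C : ℝ) * MP.Lam0 (MNs m k l' l) *
      (((MNs m k l' l).Ne' : ℝ) / (MNs m k l' l).Ne + 1 / (MNs m k l' l).q) :=
    mul_nonneg (mul_nonneg (Nat.cast_nonneg _) (Nat.cast_nonneg _))
      (add_nonneg (div_nonneg (Nat.cast_nonneg _) (Nat.cast_nonneg _))
        (div_nonneg zero_le_one (Nat.cast_nonneg _)))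
  calc _ ≤ Real.exp (4 * (lam * S2) + 3 + MX) *
        Real.exp (7 * Real.log (2 * BP k) + (X1 - X0) / 2 + 1 + (X3 - X2)) :=
        mul_le_mul hE2 hprice hpos (Real.exp_pos _).le
    _ = Real.exp (4 * (lam * S2) + 4 + 7 * Real.log (2 * BP k) +
          ((X1 - X0) / 2 + MX - (X1 - X0 + (X2 - X1) - (X3 - X0)))) := by
        rw [← Real.exp_add]; congr 1; ring
    _ ≤ _ := by
        apply Real.exp_le_exp.2
        have h4 : lam * (S2 : ℝ) ≤ 14 * S2 := mul_le_mul_of_nonneg_right lu'.le hS20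
        have h5 : (X1 - X0) / 2 + MX - (X1 - X0 + (X2 - X1) - (X3 - X0)) ≤
            -(11 / 2048 * T) + 3 * (T / 65536) := by
          rw [hMX]
          linarith only [hexp]
        linarith only [h4, h5, hK1, hlB, sl1, sl3, hT13, hS2r, hTpos]

end Pool.Agent.Helper18.T5g
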